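import Pool.Agent.H68.L.R_seed8.Y703.CQ.Stm

/-! Job CQ-SYM: the number of the nonsingular symmetric matrices over the field with two
elements. -/

set_option autoImplicit false

namespace Pool.Agent.Y839.CQ

open Finset Matrix Pool.Agent.Y703.CQ

/-- nonsingular, in terms of the kernel -/
def Ns {ι : Type} [Fintype ι] (M : Matrix ι ι (ZMod 2)) : Prop := ∀ x, M *ᵥ x = 0 → x = 0

theorem ns_iff {ι : Type} [Fintype ι] [DecidableEq ι] (M : Matrix ι ι (ZMod 2)) :
    Ns M ↔ M.det ≠ 0 := by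
  rw [Ns, ne_eq, ← Matrix.exists_mulVec_eq_zero_iff]
  constructor
  · rintro h ⟨v, hv, h1⟩
    exact hv (h v h1)
  · intro h x hx
    by_contra h1
    exact h ⟨x, h1, hx⟩

/-- the matrix with first entry `a`, first row `v` and the rest `M` -/
def mk {n : ℕ} (a : ZMod 2) (v : Fin n → ZMod 2) (M : Matrix (Fin n) (Fin n) (ZMod 2)) :
    Matrix (Fin (n + 1)) (Fin (n + 1)) (ZMod 2) :=
  Matrix.of (Fin.cons (Fin.cons a v) fun i => Fin.cons (v i) (M i))

section
variable {n : ℕ} (a : ZMod 2) (v : Fin n → ZMod 2) (M : Matrix (Fin n) (Fin n) (ZMod 2))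

@[simp] theorem mk00 : mk a v M 0 0 = a := rfl
@[simp] theorem mk0s (j : Fin n) : mk a v M 0 j.succ = v j := rfl
@[simp] theorem mks0 (i : Fin n) : mk a v M i.succ 0 = v i := rfl
@[simp] theorem mkss (i j : Fin n) : mk a v M i.succ j.succ = M i j := rfl

theorem mk_symm {M : Matrix (Fin n) (Fin n) (ZMod 2)} (h : M.IsSymm) : (mk a v M).IsSymm := by
  refine Matrix.IsSymm.ext fun i j => ?_
  refine Fin.cases ?_ (fun i => ?_) i
  · refine Fin.cases rfl (fun j => ?_) j
    rfl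
  · refine Fin.cases rfl (fun j => ?_) j
    rw [mkss, mkss]
    exact h.apply i j

theorem symm_of_mk {M : Matrix (Fin n) (Fin n) (ZMod 2)} (h : (mk a v M).IsSymm) : M.IsSymm :=
  Matrix.IsSymm.ext fun i j => h.apply i.succ j.succ

theorem mk_eq {A : Matrix (Fin (n + 1)) (Fin (n + 1)) (ZMod 2)} (h : A.IsSymm) :
    mk (A 0 0) (fun j => A 0 j.succ) (A.submatrix Fin.succ Fin.succ) = A := by
  ext i j
  refine Fin.cases ?_ (fun i => ?_) i
  · refine Fin.cases rfl (fun j => ?_) j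
    rfl
  · refine Fin.cases ?_ (fun j => ?_) j
    · rw [mks0]
      exact h.apply i.succ 0
    · rfl

/-- the kernel of a matrix in block form -/
theorem ns_mk : Ns (mk a v M) ↔ ∀ (x0 : ZMod 2) (x : Fin n → ZMod 2),
    a * x0 + v ⬝ᵥ x = 0 → x0 • v + M *ᵥ x = 0 → x0 = 0 ∧ x = 0 := by
  constructor
  · intro h x0 x h1 h2
    have h3 := h (Fin.cons x0 x) (by
      funext i
      refine Fin.cases ?_ (fun i => ?_) i
      · rw [Matrix.mulVec, dotProduct, Fin.sum_univ_succ]
        simpa [dotProduct] using h1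
      · rw [Matrix.mulVec, dotProduct, Fin.sum_univ_succ]
        have h4 := congr_fun h2 i
        simp only [Pi.add_apply, Pi.smul_apply, smul_eq_mul, Matrix.mulVec, dotProduct,
          Pi.zero_apply] at h4
        simp only [mks0, mkss, Fin.cons_zero, Fin.cons_succ, Pi.zero_apply]
        rw [mul_comm (v i) x0]
        exact h4)
    exact ⟨congr_fun h3 0, funext fun i => congr_fun h3 i.succ⟩
  · intro h x hx
    have h1 := h (x 0) (fun i => x i.succ) (by
      have h4 := congr_fun hx 0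
      rw [Matrix.mulVec, dotProduct, Fin.sum_univ_succ] at h4
      simpa [dotProduct] using h4) (by
      funext i
      have h4 := congr_fun hx i.succ
      rw [Matrix.mulVec, dotProduct, Fin.sum_univ_succ] at h4
      simp only [mks0, mkss, Pi.zero_apply] at h4
      simp only [Pi.add_apply, Pi.smul_apply, smul_eq_mul, Matrix.mulVec, dotProduct,
          Pi.zero_apply]
      rw [mul_comm (x 0) (v i)]
      exact h4)
    funext i
    refine Fin.cases h1.1 (fun i => ?_) i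
    exact congr_fun h1.2 i

end

theorem card_split {n : ℕ} (Q : Matrix (Fin (n + 1)) (Fin (n + 1)) (ZMod 2) → Prop) :
    Nat.card {M : Matrix (Fin (n + 1)) (Fin (n + 1)) (ZMod 2) // M.IsSymm ∧ Q M} =
      ∑ p : ZMod 2 × (Fin n → ZMod 2),
        Nat.card {M : Matrix (Fin n) (Fin n) (ZMod 2) // M.IsSymm ∧ Q (mk p.1 p.2 M)} := by
  rw [← Nat.card_sigma]
  refine (Nat.card_congr (Equiv.ofBijective
    (fun z : (Σ p : ZMod 2 × (Fin n → ZMod 2),
      {M : Matrix (Fin n) (Fin n) (ZMod 2) // M.IsSymm ∧ Q (mk p.1 p.2 M)}) =>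
      (⟨mk z.1.1 z.1.2 z.2.1, mk_symm _ _ z.2.2.1, z.2.2.2⟩ :
        {M : Matrix (Fin (n + 1)) (Fin (n + 1)) (ZMod 2) // M.IsSymm ∧ Q M})) ⟨?_, ?_⟩)).symm
  · rintro ⟨⟨a, v⟩, M, hM⟩ ⟨⟨b, w⟩, N, hN⟩ h
    have h1 : mk a v M = mk b w N := congr_arg Subtype.val h
    have h2 : a = b := by
      have := congr_fun (congr_fun h1 0) 0
      simpa using this
    have h3 : v = w := by
      funext j
      have := congr_fun (congr_fun h1 0) j.succ
      simpa using this
    have h4 : M = N := by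
      funext i j
      have := congr_fun (congr_fun h1 i.succ) j.succ
      simpa using this
    subst h2 h3 h4
    rfl
  · rintro ⟨A, hA, hQ⟩
    refine ⟨⟨(A 0 0, fun j => A 0 j.succ), A.submatrix Fin.succ Fin.succ, ?_, ?_⟩, ?_⟩
    · exact Matrix.IsSymm.ext fun i j => hA.apply i.succ j.succ
    · simp only
      rw [mk_eq hA]
      exact hQ
    · exact Subtype.ext (mk_eq hA)

/-- the number of the nonsingular symmetric matrices -/
noncomputable def N (n : ℕ) : ℕ :=
  Nat.card {M : Matrix (Fin n) (Fin n) (ZMod 2) // M.IsSymm ∧ Ns M}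

theorem two_eq (a : ZMod 2) : a + a = 0 := CharTwo.add_self_eq_zero a

theorem card_one {n : ℕ} (v : Fin n → ZMod 2) :
    Nat.card {M : Matrix (Fin n) (Fin n) (ZMod 2) // M.IsSymm ∧ Ns (mk 1 v M)} = N n := by
  have hs : (Matrix.vecMulVec v v).IsSymm := Matrix.IsSymm.ext fun i j => by
    rw [Matrix.vecMulVec_apply, Matrix.vecMulVec_apply, mul_comm]
  have hv : ∀ (M : Matrix (Fin n) (Fin n) (ZMod 2)) (x : Fin n → ZMod 2),
      (M + Matrix.vecMulVec v v) *ᵥ x = (v ⬝ᵥ x) • v + M *ᵥ x := by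
    intro M x
    rw [Matrix.add_mulVec, add_comm]
    congr 1
    funext i
    simp only [Matrix.mulVec, dotProduct, Matrix.vecMulVec_apply, Pi.smul_apply, smul_eq_mul]
    rw [Finset.sum_mul]
    refine Finset.sum_congr rfl fun j _ => ?_
    ring
  refine Nat.card_congr ((Equiv.addRight (Matrix.vecMulVec v v)).subtypeEquiv fun M => ?_)
  simp only [Equiv.coe_addRight]
  refine and_congr ⟨fun h => h.add hs, fun h => ?_⟩ ?_
  · have h1 := h.sub hs
    rwa [add_sub_cancel_right] at h1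
  · rw [ns_mk]
    constructor
    · intro h x hx
      rw [hv] at hx
      refine (h (v ⬝ᵥ x) x ?_ hx).2
      rw [one_mul]
      exact two_eq _
    · intro h x0 x h1 h2
      rw [one_mul] at h1
      have h3 : x0 = v ⬝ᵥ x := by
        have := two_eq (v ⬝ᵥ x)
        exact add_right_cancel (h1.trans this.symm)
      have h4 : x = 0 := h x (by rw [hv, ← h3]; exact h2)
      refine ⟨?_, h4⟩
      rw [h3, h4, dotProduct_zero]

theorem card_zero {n : ℕ} :
    Nat.card {M : Matrix (Fin n) (Fin n) (ZMod 2) // M.IsSymm ∧ Ns (mk 0 0 M)} = 0 := by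
  have : IsEmpty {M : Matrix (Fin n) (Fin n) (ZMod 2) // M.IsSymm ∧ Ns (mk 0 0 M)} := by
    refine ⟨fun z => ?_⟩
    have h := (ns_mk _ _ _).1 z.2.2 1 0 (by simp) (by simp)
    exact one_ne_zero h.1
  exact Nat.card_of_isEmpty

/-- a congruence -/
theorem cg {n : ℕ} {P : Matrix (Fin n) (Fin n) (ZMod 2)} (hP : P * P = 1) {v : Fin n → ZMod 2}
    {M : Matrix (Fin n) (Fin n) (ZMod 2)} (h : M.IsSymm ∧ Ns (mk 0 v M)) :
    (Pᵀ * M * P).IsSymm ∧ Ns (mk 0 (v ᵥ* P) (Pᵀ * M * P)) := by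
  have hPt : Pᵀ * Pᵀ = 1 := by rw [← Matrix.transpose_mul, hP, Matrix.transpose_one]
  constructor
  · rw [Matrix.IsSymm, Matrix.transpose_mul, Matrix.transpose_mul, Matrix.transpose_transpose,
      h.1.eq, Matrix.mul_assoc]
  · rw [ns_mk]
    intro x0 x h1 h2
    have h3 := (ns_mk _ _ _).1 h.2 x0 (P *ᵥ x) (by
      rw [Matrix.dotProduct_mulVec]
      exact h1) (by
      have h4 : Pᵀ *ᵥ (x0 • v + M *ᵥ (P *ᵥ x)) = 0 := by
        rw [Matrix.mulVec_add, Matrix.mulVec_smul, Matrix.mulVec_transpose, Matrix.mulVec_mulVec,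
          Matrix.mulVec_mulVec]
        exact h2
      have h5 : Pᵀ *ᵥ (Pᵀ *ᵥ (x0 • v + M *ᵥ (P *ᵥ x))) = 0 := by rw [h4, Matrix.mulVec_zero]
      rwa [Matrix.mulVec_mulVec, hPt, Matrix.one_mulVec] at h5)
    refine ⟨h3.1, ?_⟩
    have h6 : P *ᵥ (P *ᵥ x) = 0 := by rw [h3.2, Matrix.mulVec_zero]
    rwa [Matrix.mulVec_mulVec, hP, Matrix.one_mulVec] at h6

theorem card_cg {n : ℕ} {P : Matrix (Fin n) (Fin n) (ZMod 2)} (hP : P * P = 1)
    (v : Fin n → ZMod 2) :
    Nat.card {M : Matrix (Fin n) (Fin n) (ZMod 2) // M.IsSymm ∧ Ns (mk 0 v M)} =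
      Nat.card {M : Matrix (Fin n) (Fin n) (ZMod 2) // M.IsSymm ∧ Ns (mk 0 (v ᵥ* P) M)} := by
  have hPt : Pᵀ * Pᵀ = 1 := by rw [← Matrix.transpose_mul, hP, Matrix.transpose_one]
  have hi : Function.Involutive fun M : Matrix (Fin n) (Fin n) (ZMod 2) => Pᵀ * M * P := by
    intro M
    simp only
    calc Pᵀ * (Pᵀ * M * P) * P = (Pᵀ * Pᵀ) * M * (P * P) := by simp only [Matrix.mul_assoc]
      _ = M := by rw [hPt, hP, Matrix.one_mul, Matrix.mul_one]
  refine Nat.card_congr ((Function.Involutive.toPerm _ hi).subtypeEquiv fun M =>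
    ⟨fun h => cg hP h, fun h => ?_⟩)
  have h1 := cg hP h
  have h2 : Pᵀ * (Function.Involutive.toPerm _ hi M) * P = M := hi M
  rw [h2, Matrix.vecMul_vecMul, hP, Matrix.vecMul_one] at h1
  exact h1

theorem card_tr {n : ℕ} (v u : Fin n → ZMod 2) (i : Fin n) (hv : v i = 1) (hu : u i = 0) :
    Nat.card {M : Matrix (Fin n) (Fin n) (ZMod 2) // M.IsSymm ∧ Ns (mk 0 v M)} =
      Nat.card {M : Matrix (Fin n) (Fin n) (ZMod 2) // M.IsSymm ∧ Ns (mk 0 (v + u) M)} := by
  have h1 : Matrix.vecMulVec (Pi.single i (1 : ZMod 2)) u * Matrix.vecMulVec (Pi.single i 1) u =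
      0 := by
    rw [Matrix.vecMulVec_mul_vecMulVec, dotProduct_single, hu, zero_mul]
    simp
  have h2 : ∀ A : Matrix (Fin n) (Fin n) (ZMod 2), A + A = 0 := fun A => by
    ext a b
    exact two_eq _
  have hP : (1 + Matrix.vecMulVec (Pi.single i (1 : ZMod 2)) u) *
      (1 + Matrix.vecMulVec (Pi.single i (1 : ZMod 2)) u) = 1 := by
    rw [add_mul, mul_add, mul_add, h1, one_mul, mul_one, one_mul, add_zero, add_assoc, h2, add_zero]
  have h3 : v ᵥ* (1 + Matrix.vecMulVec (Pi.single i (1 : ZMod 2)) u) = v + u := by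
    rw [Matrix.vecMul_add, Matrix.vecMul_one]
    congr 1
    funext j
    simp only [Matrix.vecMul, dotProduct, Matrix.vecMulVec_apply]
    rw [Finset.sum_eq_single i]
    · rw [hv, Pi.single_eq_same, one_mul, one_mul]
    · intro b _ hb
      rw [Pi.single_eq_of_ne hb, zero_mul, mul_zero]
    · intro h
      exact absurd (Finset.mem_univ i) h
  rw [card_cg hP v, h3]

theorem card_e0 {m : ℕ} :
    Nat.card {M : Matrix (Fin (m + 1)) (Fin (m + 1)) (ZMod 2) //
      M.IsSymm ∧ Ns (mk 0 (Pi.single 0 1) M)} = 2 ^ (m + 1) * N m := by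
  rw [card_split]
  have h : ∀ p : ZMod 2 × (Fin m → ZMod 2), Nat.card {M : Matrix (Fin m) (Fin m) (ZMod 2) //
      M.IsSymm ∧ Ns (mk 0 (Pi.single 0 1) (mk p.1 p.2 M))} = N m := by
    rintro ⟨d, w⟩
    refine Nat.card_congr ((Equiv.refl _).subtypeEquiv fun M => ?_)
    refine and_congr Iff.rfl ?_
    simp only [Equiv.refl_apply]
    rw [ns_mk]
    have hm : ∀ (x1 : ZMod 2) (x : Fin m → ZMod 2) (i : Fin m),
        (mk d w M *ᵥ Fin.cons x1 x) i.succ = w i * x1 + (M *ᵥ x) i := by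
      intro x1 x i
      rw [Matrix.mulVec, dotProduct, Fin.sum_univ_succ]
      rfl
    have hm0 : ∀ (x1 : ZMod 2) (x : Fin m → ZMod 2),
        (mk d w M *ᵥ Fin.cons x1 x) 0 = d * x1 + w ⬝ᵥ x := by
      intro x1 x
      rw [Matrix.mulVec, dotProduct, Fin.sum_univ_succ]
      rfl
    constructor
    · intro h x hx
      have h1 := h (w ⬝ᵥ x) (Fin.cons 0 x) (by
        rw [zero_mul, zero_add, single_dotProduct, Fin.cons_zero, mul_zero]) (by
        funext i
        refine Fin.cases ?_ (fun i => ?_) i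
        · simp only [Pi.add_apply, hm0, Pi.smul_apply, Pi.single_eq_same, smul_eq_mul, mul_one,
            mul_zero, zero_add, Pi.zero_apply]
          exact two_eq _
        · simp only [Pi.add_apply, hm, Pi.smul_apply, smul_eq_mul, Pi.zero_apply, mul_zero,
            zero_add]
          rw [Pi.single_eq_of_ne (Fin.succ_ne_zero i), mul_zero, zero_add, hx, Pi.zero_apply])
      funext i
      exact congr_fun h1.2 i.succ
    · intro h x0 y h1 h2
      obtain ⟨x1, x, rfl⟩ : ∃ (x1 : ZMod 2) (x : Fin m → ZMod 2), y = Fin.cons x1 x :=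
        ⟨y 0, fun i => y i.succ, by
          funext i
          refine Fin.cases rfl (fun i => ?_) i
          rfl⟩
      rw [zero_mul, zero_add, single_dotProduct, Fin.cons_zero, one_mul] at h1
      subst h1
      have h3 : x = 0 := h x (by
        funext i
        have h4 := congr_fun h2 i.succ
        simp only [Pi.add_apply, hm, Pi.smul_apply, smul_eq_mul, Pi.zero_apply, mul_zero,
            zero_add] at h4
        rw [Pi.single_eq_of_ne (Fin.succ_ne_zero i), mul_zero, zero_add] at h4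
        exact h4)
      subst h3
      have h5 := congr_fun h2 0
      simp only [Pi.add_apply, hm0, Pi.smul_apply, Pi.single_eq_same, smul_eq_mul, mul_one,
            mul_zero, Pi.zero_apply, dotProduct_zero, add_zero] at h5
      refine ⟨h5, ?_⟩
      funext i
      refine Fin.cases rfl (fun i => ?_) i
      rfl
  rw [Finset.sum_congr rfl fun p _ => h p, Finset.sum_const, Finset.card_univ, smul_eq_mul]
  congr 1
  rw [Fintype.card_prod, Fintype.card_fun, ZMod.card, Fintype.card_fin, pow_succ, mul_comm]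

theorem card_nz {m : ℕ} (v : Fin (m + 1) → ZMod 2) (hv : v ≠ 0) :
    Nat.card {M : Matrix (Fin (m + 1)) (Fin (m + 1)) (ZMod 2) // M.IsSymm ∧ Ns (mk 0 v M)} =
      2 ^ (m + 1) * N m := by
  have hz : ∀ a : ZMod 2, a ≠ 0 → a = 1 := by decide
  have key : ∀ w : Fin (m + 1) → ZMod 2, w 0 = 1 →
      Nat.card {M : Matrix (Fin (m + 1)) (Fin (m + 1)) (ZMod 2) // M.IsSymm ∧ Ns (mk 0 w M)} =
      2 ^ (m + 1) * N m := by
    intro w hw
    have h1 : w + (w + Pi.single 0 1) = Pi.single 0 1 := by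
      rw [← add_assoc]
      funext j
      simp only [Pi.add_apply, two_eq, zero_add]
    rw [card_tr w (w + Pi.single 0 1) 0 hw (by
      rw [Pi.add_apply, hw, Pi.single_eq_same]
      exact two_eq 1), h1]
    exact card_e0
  by_cases h0 : v 0 = 0
  · obtain ⟨i, hi⟩ : ∃ i, v i ≠ 0 := by
      by_contra h
      push Not at h
      exact hv (funext h)
    have hi0 : i ≠ 0 := by
      rintro rfl
      exact hi h0
    rw [card_tr v (Pi.single 0 1) i (hz _ hi) (Pi.single_eq_of_ne hi0 _)]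
    refine key _ ?_
    rw [Pi.add_apply, h0, Pi.single_eq_same, zero_add]
  · exact key v (hz _ h0)

theorem N_succ (n : ℕ) : N (n + 1) = 2 ^ n * N n +
    ∑ v : Fin n → ZMod 2,
      Nat.card {M : Matrix (Fin n) (Fin n) (ZMod 2) // M.IsSymm ∧ Ns (mk 0 v M)} := by
  rw [N, card_split, Fintype.sum_prod_type]
  have h : ∀ g : ZMod 2 → ℕ, ∑ a : ZMod 2, g a = g 0 + g 1 := fun g => Fin.sum_univ_two g
  rw [h, add_comm]
  congr 1
  simp only
  rw [Finset.sum_congr rfl fun v _ => card_one v, Finset.sum_const, Finset.card_univ, smul_eq_mul,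
    Fintype.card_fun, ZMod.card, Fintype.card_fin]

theorem N_zero : N 0 = 1 := by
  have : Unique {M : Matrix (Fin 0) (Fin 0) (ZMod 2) // M.IsSymm ∧ Ns M} :=
    { default := ⟨0, Matrix.isSymm_zero, fun x _ => Subsingleton.elim _ _⟩
      uniq := fun a => Subtype.ext (Subsingleton.elim _ _) }
  exact Nat.card_unique

theorem N_one : N 1 = 1 := by
  have h : ∀ v : Fin 0 → ZMod 2,
      Nat.card {M : Matrix (Fin 0) (Fin 0) (ZMod 2) // M.IsSymm ∧ Ns (mk 0 v M)} = 0 := by
    intro v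
    rw [show v = 0 from Subsingleton.elim _ _]
    exact card_zero
  rw [N_succ, N_zero, Finset.sum_congr rfl fun v _ => h v, Finset.sum_const_zero]
  norm_num

theorem N_two (m : ℕ) : (N (m + 2) : ℝ) =
    2 ^ (m + 1) * N (m + 1) + (2 ^ (m + 1) - 1) * (2 ^ (m + 1) * N m) := by
  rw [show m + 2 = (m + 1) + 1 from rfl, N_succ]
  have h : ∑ v : Fin (m + 1) → ZMod 2,
      Nat.card {M : Matrix (Fin (m + 1)) (Fin (m + 1)) (ZMod 2) // M.IsSymm ∧ Ns (mk 0 v M)} =
      (2 ^ (m + 1) - 1) * (2 ^ (m + 1) * N m) := by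
    classical
    rw [← Finset.add_sum_erase _ _ (Finset.mem_univ (0 : Fin (m + 1) → ZMod 2)), card_zero,
      zero_add, Finset.sum_congr rfl fun v hv => card_nz v (Finset.ne_of_mem_erase hv),
      Finset.sum_const, Finset.card_erase_of_mem (Finset.mem_univ _), Finset.card_univ,
      smul_eq_mul, Fintype.card_fun, ZMod.card, Fintype.card_fin]
  rw [h]
  push_cast [Nat.one_le_two_pow]
  ring

/-- the closed form -/
noncomputable def cl (n : ℕ) : ℝ :=
  2 ^ (n * (n + 1) / 2) * ∏ i ∈ range ((n + 1) / 2), (1 - (1 / 2 : ℝ) ^ (2 * i + 1))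

theorem cl_two (m : ℕ) : cl (m + 2) =
    2 ^ (m + 1) * cl (m + 1) + (2 ^ (m + 1) - 1) * (2 ^ (m + 1) * cl m) := by
  obtain ⟨k, rfl | rfl⟩ : ∃ k, m = 2 * k ∨ m = 2 * k + 1 := ⟨m / 2, by omega⟩
  · unfold cl
    rw [show (2 * k + 2) * (2 * k + 2 + 1) / 2 = 2 * k ^ 2 + k + (2 * (2 * k + 1) + 1) by
        rw [Nat.div_eq_of_eq_mul_left (by norm_num)]
        ring,
      show (2 * k + 1) * (2 * k + 1 + 1) / 2 = 2 * k ^ 2 + k + (2 * k + 1) by
        rw [Nat.div_eq_of_eq_mul_left (by norm_num)]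
        ring,
      show 2 * k * (2 * k + 1) / 2 = 2 * k ^ 2 + k by
        rw [Nat.div_eq_of_eq_mul_left (by norm_num)]
        ring,
      show (2 * k + 2 + 1) / 2 = k + 1 by omega, show (2 * k + 1 + 1) / 2 = k + 1 by omega,
      show (2 * k + 1) / 2 = k by omega, Finset.prod_range_succ]
    generalize ∏ i ∈ range k, (1 - (1 / 2 : ℝ) ^ (2 * i + 1)) = p
    have e1 : (2 : ℝ) ^ (2 * k ^ 2 + k + (2 * (2 * k + 1) + 1)) =
        2 ^ (2 * k ^ 2 + k) * ((2 ^ (2 * k + 1)) ^ 2 * 2) := by ring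
    have e2 : (2 : ℝ) ^ (2 * k ^ 2 + k + (2 * k + 1)) = 2 ^ (2 * k ^ 2 + k) * 2 ^ (2 * k + 1) :=
      pow_add _ _ _
    rw [e1, e2, one_div, inv_pow]
    generalize (2 : ℝ) ^ (2 * k ^ 2 + k) = q
    have h0 : (2 : ℝ) ^ (2 * k + 1) ≠ 0 := by positivity
    generalize (2 : ℝ) ^ (2 * k + 1) = s at h0
    field_simp
    ring
  · unfold cl
    rw [show (2 * k + 1 + 2) * (2 * k + 1 + 2 + 1) / 2 = 2 * k ^ 2 + 3 * k + 1 +
          (2 * (2 * k + 2) + 1) by
        rw [Nat.div_eq_of_eq_mul_left (by norm_num)]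
        ring,
      show (2 * k + 1 + 1) * (2 * k + 1 + 1 + 1) / 2 = 2 * k ^ 2 + 3 * k + 1 + (2 * k + 2) by
        rw [Nat.div_eq_of_eq_mul_left (by norm_num)]
        ring,
      show (2 * k + 1) * (2 * k + 1 + 1) / 2 = 2 * k ^ 2 + 3 * k + 1 by
        rw [Nat.div_eq_of_eq_mul_left (by norm_num)]
        ring,
      show (2 * k + 1 + 2 + 1) / 2 = (k + 1) + 1 by omega,
      show (2 * k + 1 + 1 + 1) / 2 = k + 1 by omega,
      show (2 * k + 1 + 1) / 2 = k + 1 by omega, Finset.prod_range_succ _ (k + 1),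
      show 2 * k + 1 + 1 = 2 * k + 2 from rfl, show 2 * (k + 1) + 1 = (2 * k + 2) + 1 by ring]
    generalize ∏ i ∈ range (k + 1), (1 - (1 / 2 : ℝ) ^ (2 * i + 1)) = p
    have e1 : (2 : ℝ) ^ (2 * k ^ 2 + 3 * k + 1 + (2 * (2 * k + 2) + 1)) =
        2 ^ (2 * k ^ 2 + 3 * k + 1) * ((2 ^ (2 * k + 2)) ^ 2 * 2) := by ring
    have e2 : (2 : ℝ) ^ (2 * k ^ 2 + 3 * k + 1 + (2 * k + 2)) =
        2 ^ (2 * k ^ 2 + 3 * k + 1) * 2 ^ (2 * k + 2) := pow_add _ _ _
    rw [e1, e2, one_div, inv_pow, pow_succ (2 : ℝ) (2 * k + 2)]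
    generalize (2 : ℝ) ^ (2 * k ^ 2 + 3 * k + 1) = q
    have h0 : (2 : ℝ) ^ (2 * k + 2) ≠ 0 := by positivity
    generalize (2 : ℝ) ^ (2 * k + 2) = s at h0
    field_simp
    ring

theorem N_eq (n : ℕ) : (N n : ℝ) = cl n := by
  induction n using Nat.strongRecOn with
  | _ n ih =>
    rcases n with _ | _ | m
    · rw [N_zero]
      simp [cl]
    · rw [N_one]
      norm_num [cl]
    · rw [N_two, ih (m + 1) (by omega), ih m (by omega), ← cl_two]

theorem t_SYM : S_SYM := by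
  intro n
  have h : Nat.card {M : Matrix (Fin n) (Fin n) (ZMod 2) // M.IsSymm ∧ M.det ≠ 0} = N n :=
    Nat.card_congr ((Equiv.refl _).subtypeEquiv fun M => and_congr Iff.rfl (ns_iff M).symm)
  rw [h, N_eq, cl]

/-- the same for any finite index type -/
theorem sym_card (ι : Type) [Fintype ι] [DecidableEq ι] :
    (Nat.card {M : Matrix ι ι (ZMod 2) // M.IsSymm ∧ M.det ≠ 0} : ℝ) =
      2 ^ (Fintype.card ι * (Fintype.card ι + 1) / 2) *
        ∏ i ∈ range ((Fintype.card ι + 1) / 2), (1 - (1 / 2 : ℝ) ^ (2 * i + 1)) := by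
  rw [← t_SYM (Fintype.card ι)]
  congr 1
  have e := Fintype.equivFin ι
  refine Nat.card_congr ((Matrix.reindex e e).subtypeEquiv fun M => and_congr ?_ ?_)
  · constructor
    · intro h
      exact Matrix.IsSymm.ext fun i j => h.apply (e.symm i) (e.symm j)
    · intro h
      refine Matrix.IsSymm.ext fun i j => ?_
      have := h.apply (e i) (e j)
      simpa using this
  · rw [Matrix.det_reindex_self]

/-- the same in terms of the kernels -/
theorem sym_ker (ι : Type) [Fintype ι] [DecidableEq ι] :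
    (Nat.card {M : Matrix ι ι (ZMod 2) // M.IsSymm ∧ ∀ x, M *ᵥ x = 0 → x = 0} : ℝ) =
      2 ^ (Fintype.card ι * (Fintype.card ι + 1) / 2) *
        ∏ i ∈ range ((Fintype.card ι + 1) / 2), (1 - (1 / 2 : ℝ) ^ (2 * i + 1)) := by
  rw [← sym_card ι]
  congr 1
  exact Nat.card_congr ((Equiv.refl _).subtypeEquiv fun M => and_congr Iff.rfl (ns_iff M))

end Pool.Agent.Y839.CQ
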